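import Pool.Agent.Q202.SS.Fun

/-!
# A strictly singular composition operator which is not compact

`E` is the space of the functions `∑ c_n z^n` on the disc with `∑ |c_(2j+1)| < ∞` and
`∑ |2^m c_(2m)|² < ∞`, with the norm `max (∑ |c_(2j+1)|, (∑ |2^m c_(2m)|²)^(1/2))`, and `φ(z) = z² / 2`.
In the coordinates `a_j = c_(2j+1)`, `b_m = 2^m c_(2m)` the operator `C_φ` is `(a, b) ↦ (0, b')`,
`b'_(2j+1) = a_j`, `b'_(2m) = 2^(-m) b_m`: the sum of the inclusion of `ℓ¹` in `ℓ²` and a compact operator.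
-/

set_option autoImplicit false

open Metric

namespace Pool.Agent.Results.MP_628ecd_an.StrictlySingularNonCompact

/-- `E` is, through the linear map `val`, a Banach space of analytic functions on the open unit disc:
`val` is injective, its values are analytic, and all point evaluations are continuous. -/
structure IsSpaceOfAnalyticFunctions {E : Type} [NormedAddCommGroup E] [NormedSpace ℂ E]
    (val : E →ₗ[ℂ] (ball (0 : ℂ) 1 → ℂ)) : Prop where
  injective : Function.Injective val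
  analytic : ∀ f, ∃ F : ℂ → ℂ, DifferentiableOn ℂ F (ball 0 1) ∧
    ∀ z : ball (0 : ℂ) 1, val f z = F z
  evaluation : ∀ z : ball (0 : ℂ) 1, Continuous fun f => val f z

/-- `T` is the composition operator with the symbol `φ`. -/
def IsCompositionOperator {E : Type} [NormedAddCommGroup E] [NormedSpace ℂ E]
    (val : E →ₗ[ℂ] (ball (0 : ℂ) 1 → ℂ)) (φ : ball (0 : ℂ) 1 → ball (0 : ℂ) 1)
    (T : E →L[ℂ] E) : Prop :=
  ∀ (f : E) (z : ball (0 : ℂ) 1), val (T f) z = val f (φ z)

/-- `φ` is an analytic map of the disc into itself. -/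
def IsAnalyticSelfMap (φ : ball (0 : ℂ) 1 → ball (0 : ℂ) 1) : Prop :=
  ∃ F : ℂ → ℂ, DifferentiableOn ℂ F (ball 0 1) ∧ ∀ z : ball (0 : ℂ) 1, (φ z : ℂ) = F z

/-- `T` is not bounded below on any closed infinite-dimensional subspace. -/
def StrictlySingular {E : Type} [NormedAddCommGroup E] [NormedSpace ℂ E] (T : E →L[ℂ] E) : Prop :=
  ¬ ∃ (M : Submodule ℂ E) (c : ℝ), IsClosed (M : Set E) ∧ ¬ FiniteDimensional ℂ M ∧ 0 < c ∧
    ∀ x ∈ M, c * ‖x‖ ≤ ‖T x‖

/-- **There is a Banach space of analytic functions on the disc with a bounded composition operator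
which is strictly singular but not compact.** -/
theorem result : ∃ (E : Type) (_ : NormedAddCommGroup E) (_ : NormedSpace ℂ E)
    (_ : CompleteSpace E) (val : E →ₗ[ℂ] (ball (0 : ℂ) 1 → ℂ))
    (φ : ball (0 : ℂ) 1 → ball (0 : ℂ) 1) (T : E →L[ℂ] E),
    IsSpaceOfAnalyticFunctions val ∧ IsAnalyticSelfMap φ ∧ IsCompositionOperator val φ T ∧
      StrictlySingular T ∧ ¬ IsCompactOperator (T : E → E) := by
  refine ⟨Pool.Agent.Q202.SS.E, inferInstance, inferInstance, inferInstance,
    Pool.Agent.Q202.SS.val,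
    fun z => ⟨Pool.Agent.Q202.SS.phi z, Pool.Agent.Q202.SS.phi_mem z.2⟩, Pool.Agent.Q202.SS.T,
    ⟨Pool.Agent.Q202.SS.val_injective, Pool.Agent.Q202.SS.val_analytic,
      Pool.Agent.Q202.SS.val_continuous⟩, ⟨Pool.Agent.Q202.SS.phi, ?_, fun z => rfl⟩,
    Pool.Agent.Q202.SS.val_T, ?_, Pool.Agent.Q202.SS.not_compact⟩
  · exact ((differentiable_id.pow 2).div_const 2).differentiableOn
  · rintro ⟨M, c, -, hM, hc, h⟩
    exact Pool.Agent.Q202.SS.strictly_singular M hM c hc h

end Pool.Agent.Results.MP_628ecd_an.StrictlySingularNonCompact
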